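import Mathlib
import Pool.Agent.H200.BlockEq
import Pool.Agent.H200.WeightForm

/-!
# Coefficient multipliers of `H^p` into itself, `0 < p < 1`

For `0 < p < 1` and any integer `M` with `M p > 1` we characterise the coefficient multipliers
`lam` of `H^p` into itself by two explicit conditions on the sequence `lam`.

For `L ≥ 1` and `n ≥ 0` put

  `B_{n,L}(θ) = L^{-M} * ∑_{j ∈ {0,...,L-1}^M} lam_{n+|j|} e^{i|j|θ}`,  `|j| = j_1 + ... + j_M`,

that is, the piece of the sequence `lam` seen through the window of length about `L` placed at `n`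
(the window being the `M`-fold convolution power of the uniform weight on `{0,...,L-1}`).
Then the following are equivalent:

* `lam` is a coefficient multiplier of `H^p` into `H^p`;
* (`HullTest`) for some `C`, for all `L ≥ 1`, every convex combination `G` of the local energies
  `|B_{n,L}|^2`, `n ≥ 0`, satisfies `∫_0^{2π} G^{p/2} ≤ C / L`;
* (`WeightTest`) for some `C`, for all `L ≥ 1` there is a positive continuous weight `w` with
  `∫_0^{2π} w^{-p/(2-p)} ≤ C / L` and `∫_0^{2π} |B_{n,L}|^2 w ≤ C / L` for all `n ≥ 0`.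
-/

set_option autoImplicit false

open MeasureTheory

namespace Pool.Agent.Results.MP_63674d_an.HpMultiplierHullTest

/-- The power series `∑ a_n z^n` converges in the unit disc and its sum belongs to `H^p`. -/
def InHp (p : ℝ) (a : ℕ → ℂ) : Prop :=
  (∀ z : ℂ, ‖z‖ < 1 → Summable (fun n => a n * z ^ n)) ∧
  ∃ B : ℝ, ∀ r : ℝ, 0 < r → r < 1 →
    ∫ θ in (0:ℝ)..2 * Real.pi,
      ‖∑' n, a n * ((r : ℂ) * Complex.exp (θ * Complex.I)) ^ n‖ ^ p ≤ B

/-- `lam` is a coefficient multiplier of `H^p` into `H^p`. -/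
def IsMultiplier (p : ℝ) (lam : ℕ → ℂ) : Prop :=
  ∀ a : ℕ → ℂ, InHp p a → InHp p (fun n => lam n * a n)

/-- `B_{n,L}(θ) = L^{-M} ∑_{j ∈ {0,...,L-1}^M} lam_{n+|j|} e^{i|j|θ}`. -/
noncomputable def block (M L : ℕ) (lam : ℕ → ℂ) (n : ℕ) (θ : ℝ) : ℂ :=
  ((L : ℂ) ^ M)⁻¹ * ∑ j : Fin M → Fin L, lam (n + ∑ i, (j i : ℕ)) *
    Complex.exp (((∑ i, (j i : ℕ) : ℕ) : ℂ) * θ * Complex.I)

/-- The convex hull of the local energies `|B_{n,L}|^2` is bounded in `L^{p/2}`, with the bound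
`∫ G^{p/2} ≤ C / L`. -/
def HullTest (p : ℝ) (M : ℕ) (lam : ℕ → ℂ) : Prop :=
  ∃ C : ℝ, ∀ L : ℕ, 1 ≤ L → ∀ (s : Finset ℕ) (β : ℕ → ℝ), (∀ n ∈ s, 0 ≤ β n) →
    ∑ n ∈ s, β n = 1 →
    ∫ θ in (0:ℝ)..2 * Real.pi, (∑ n ∈ s, β n * ‖block M L lam n θ‖ ^ 2) ^ (p / 2) ≤ C / L

/-- At each scale `L` there is one weight controlling all local energies. -/
def WeightTest (p : ℝ) (M : ℕ) (lam : ℕ → ℂ) : Prop :=
  ∃ C : ℝ, ∀ L : ℕ, 1 ≤ L → ∃ w : ℝ → ℝ, Continuous w ∧ (∀ θ, 0 < w θ) ∧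
    ∫ θ in (0:ℝ)..2 * Real.pi, w θ ^ (-(p / (2 - p))) ≤ C / L ∧
    ∀ n : ℕ, ∫ θ in (0:ℝ)..2 * Real.pi, ‖block M L lam n θ‖ ^ 2 * w θ ≤ C / L

open Pool.Agent.H200 in
lemma inHp_iff (p : ℝ) (a : ℕ → ℂ) : InHp p a ↔ HpM p a := by
  rw [HpM_iff]
  unfold InHp
  constructor
  · rintro ⟨h1, B, hB⟩
    refine ⟨h1, max B (∫ θ in (0:ℝ)..2 * Real.pi,
      ‖∑' n, a n * (((0:ℝ) : ℂ) * Complex.exp (θ * Complex.I)) ^ n‖ ^ p), fun r h0 hr => ?_⟩
    rcases h0.eq_or_lt with h | h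
    · rw [← h]
      exact le_max_right _ _
    · exact (hB r h hr).trans (le_max_left _ _)
  · rintro ⟨h1, B, hB⟩
    exact ⟨h1, B, fun r h0 hr => hB r h0.le hr⟩

open Pool.Agent.H200 in
lemma block_eq {M L : ℕ} (hM : 1 ≤ M) (lam : ℕ → ℂ) (n : ℕ) (θ : ℝ) :
    block M L lam n θ = (blk lam (bw M L) (M * L) n).eval (Complex.exp (θ * Complex.I)) := by
  unfold block
  rw [blk_exp hM]

open Pool.Agent.H200 in
lemma hull_int {p : ℝ} {M : ℕ} (hM : 1 ≤ M) (lam : ℕ → ℂ) (L : ℕ) (s : Finset ℕ) (β : ℕ → ℝ) :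
    ∫ θ in (0:ℝ)..2 * Real.pi, (∑ n ∈ s, β n * ‖block M L lam n θ‖ ^ 2) ^ (p / 2) =
      (2 * Real.pi) * ∫ x, G2 lam (bw M L) (M * L) s β x ^ (p / 2) ∂mu := by
  simp_rw [block_eq hM]
  exact circ_int (fun z : ℂ => (∑ n ∈ s, β n *
    ‖(blk lam (bw M L) (M * L) n).eval z‖ ^ 2) ^ (p / 2))

open Pool.Agent.H200 in
lemma hull_iff {p : ℝ} {M : ℕ} (hM : 1 ≤ M) (lam : ℕ → ℂ) :
    HullTest p M lam ↔ ∃ C, HB p M lam C := by
  have hpi := Real.pi_pos
  unfold HullTest HB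
  constructor
  · rintro ⟨C, hC⟩
    refine ⟨C / (2 * Real.pi), fun L hL s β hβ hβ1 => ?_⟩
    have := hC L hL s β hβ hβ1
    rw [hull_int hM] at this
    rw [div_right_comm, le_div_iff₀ (by positivity)]
    linarith
  · rintro ⟨C, hC⟩
    refine ⟨2 * Real.pi * C, fun L hL s β hβ hβ1 => ?_⟩
    rw [hull_int hM, mul_div_assoc]
    exact mul_le_mul_of_nonneg_left (hC L hL s β hβ hβ1) (by positivity)

lemma block_cont (M L : ℕ) (lam : ℕ → ℂ) (n : ℕ) : Continuous (block M L lam n) := by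
  unfold block
  fun_prop

open Pool.Agent.H200 in
lemma weight_of {p : ℝ} (hp : 0 < p) (hp1 : p < 1) {M : ℕ} (hM : 1 ≤ M) {lam : ℕ → ℂ}
    (h : HullTest p M lam) : WeightTest p M lam := by
  obtain ⟨C0, hC0⟩ := (hull_iff hM lam).1 h
  have hC00 := HB_nonneg hC0
  have hlam : ∀ n, ‖lam n‖ ≤ C0 ^ (1 / p) := by
    intro n
    have h2 := HB_bdd hM hC0 n
    have h3 := Real.rpow_le_rpow (by positivity) h2 (show (0:ℝ) ≤ 1 / p by positivity)
    rw [← Real.rpow_mul (norm_nonneg _)] at h3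
    have : p * (1 / p) = 1 := by field_simp
    rwa [this, Real.rpow_one] at h3
  obtain ⟨C, hC⟩ := h
  refine ⟨10 * max C 1, fun L hL => ?_⟩
  have hL0 : (0:ℝ) < L := by exact_mod_cast hL
  have hR : ∀ n θ, ‖block M L lam n θ‖ ^ 2 ≤ (C0 ^ (1 / p)) ^ 2 := by
    intro n θ
    apply pow_le_pow_left₀ (norm_nonneg _)
    unfold block
    rw [norm_mul, norm_inv, norm_pow, Complex.norm_natCast]
    have h1 : ‖∑ j : Fin M → Fin L, lam (n + ∑ i, (j i : ℕ)) *
        Complex.exp (((∑ i, (j i : ℕ) : ℕ) : ℂ) * θ * Complex.I)‖ ≤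
        (L : ℝ) ^ M * C0 ^ (1 / p) := by
      refine (norm_sum_le _ _).trans ?_
      have h2 : ∀ j ∈ (Finset.univ : Finset (Fin M → Fin L)), ‖lam (n + ∑ i, (j i : ℕ)) *
          Complex.exp (((∑ i, (j i : ℕ) : ℕ) : ℂ) * θ * Complex.I)‖ ≤ C0 ^ (1 / p) := by
        intro j _
        rw [norm_mul]
        have e : ((((∑ i, (j i : ℕ) : ℕ) : ℂ)) * (θ : ℂ) * Complex.I) =
            ((((∑ i, (j i : ℕ) : ℕ) : ℝ) * θ : ℝ) : ℂ) * Complex.I := by push_cast; ring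
        rw [e, Complex.norm_exp_ofReal_mul_I, mul_one]
        exact hlam _
      refine (Finset.sum_le_sum h2).trans (le_of_eq ?_)
      rw [Finset.sum_const, Finset.card_univ, Fintype.card_fun, Fintype.card_fin,
        Fintype.card_fin, nsmul_eq_mul]
      push_cast
      ring
    calc ((L : ℝ) ^ M)⁻¹ * _ ≤ ((L : ℝ) ^ M)⁻¹ * ((L : ℝ) ^ M * C0 ^ (1 / p)) :=
          mul_le_mul_of_nonneg_left h1 (by positivity)
      _ = _ := by field_simp
  obtain ⟨w, hw, hw0, h1, h2⟩ := weight_of_hull (q := p / 2) (by positivity) (by linarith)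
    (h := fun n θ => ‖block M L lam n θ‖ ^ 2) (fun n => (block_cont M L lam n).norm.pow 2)
    (fun n x => by positivity) hR (A := max C 1 / L)
    (by positivity) (fun s β hβ hβ1 => by
      refine (hC L hL s β hβ hβ1).trans ?_
      gcongr
      exact le_max_left _ _)
  have e : p / 2 / (1 - p / 2) = p / (2 - p) := by
    have h3 : 1 - p / 2 ≠ 0 := by linarith
    have h4 : 2 - p ≠ 0 := by linarith
    field_simp
  rw [e] at h1
  refine ⟨w, hw, hw0, ?_, fun n => ?_⟩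
  · refine h1.trans (le_of_eq ?_)
    ring
  · refine (h2 n).trans (le_of_eq ?_)
    ring

open Pool.Agent.H200 in
lemma hull_of {p : ℝ} (hp : 0 < p) (hp1 : p < 1) {M : ℕ} {lam : ℕ → ℂ}
    (h : WeightTest p M lam) : HullTest p M lam := by
  obtain ⟨C, hC⟩ := h
  refine ⟨C, fun L hL s β hβ hβ1 => ?_⟩
  obtain ⟨w, hw, hw0, h1, h2⟩ := hC L hL
  have e : p / 2 / (1 - p / 2) = p / (2 - p) := by
    have h3 : 1 - p / 2 ≠ 0 := by linarith
    have h4 : 2 - p ≠ 0 := by linarith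
    field_simp
  exact hull_of_weight (q := p / 2) (by positivity) (by linarith)
    (h := fun n θ => ‖block M L lam n θ‖ ^ 2) (fun n => (block_cont M L lam n).norm.pow 2)
    (fun n x => by positivity) hw hw0 (by rw [e]; exact h1) h2 s β hβ hβ1

/-- **Characterisation of the coefficient multipliers of `H^p` into `H^p`, `0 < p < 1`.** -/
theorem result (p : ℝ) (hp0 : 0 < p) (hp1 : p < 1) (M : ℕ) (hM : 1 < M * p) (lam : ℕ → ℂ) :
    List.TFAE [IsMultiplier p lam, HullTest p M lam, WeightTest p M lam] := by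
  have hM1 : 1 ≤ M := by
    rcases Nat.eq_zero_or_pos M with h | h
    · rw [h] at hM
      norm_num at hM
    · exact h
  tfae_have 1 → 2 := by
    intro h
    rw [hull_iff hM1]
    obtain ⟨B, hB0, hB⟩ := Pool.Agent.H200.bdd_poly hp0 hp1 (lam := lam) (fun a ha => by
      rw [← inHp_iff] at ha ⊢
      exact h a ha)
    obtain ⟨C, hC, h1⟩ := Pool.Agent.H200.nec_HB hp0 (by linarith) hM
    exact ⟨C * B, h1 lam B hB0 hB⟩
  tfae_have 2 → 1 := by
    intro h a ha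
    obtain ⟨C, hC⟩ := (hull_iff hM1 lam).1 h
    rw [inHp_iff] at ha ⊢
    exact Pool.Agent.H200.suff_hp hp0 hp1 hM1 hC ha
  tfae_have 2 → 3 := weight_of hp0 hp1 hM1
  tfae_have 3 → 2 := hull_of hp0 hp1
  tfae_finish

end Pool.Agent.Results.MP_63674d_an.HpMultiplierHullTest
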